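import Mathlib

set_option autoImplicit false

open scoped ContDiff UniformConvergence Nat

namespace H749Z.PS

/-- The interval `I = [0, 1]`. -/
abbrev I : Set ℝ := Set.Icc 0 1

variable (𝕂 : Type) [RCLike 𝕂]

/-- The vector space `C^∞(I)` of infinitely differentiable functions `I → 𝕂` (one-sided
derivatives at the endpoints). A function on `I` is read as a function on `ℝ` through
`Set.IccExtend`; only its values on `I` matter below. -/
def Cinf : Submodule 𝕂 (I → 𝕂) where
  carrier := {f | ContDiffOn ℝ ∞ (Set.IccExtend zero_le_one f) I}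
  add_mem' hf hg := ContDiffOn.add hf hg
  zero_mem' := contDiffOn_const
  smul_mem' c _ hf := ContDiffOn.const_smul c hf

variable {𝕂}

/-- The `n`-th derivative `f^(n)(x)` of `f : I → 𝕂` at `x ∈ I`, taken within `I`. -/
noncomputable def der (n : ℕ) (f : I → 𝕂) (x : I) : 𝕂 :=
  iteratedDerivWithin n (Set.IccExtend zero_le_one f) I x

/-- The radius of convergence `ρ(f, x)` of the Taylor series `∑ f^(n)(x) (t - x)^n / n!`. -/
noncomputable def rho (f : I → 𝕂) (x : I) : ENNReal :=
  (FormalMultilinearSeries.ofScalars 𝕂 fun n => der n f x / (n ! : 𝕂)).radius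

variable (𝕂)

/-- The Fréchet topology of `C^∞(I)`: uniform convergence on `I` of every derivative. -/
@[reducible] noncomputable def frechet : TopologicalSpace (Cinf 𝕂) :=
  ⨅ n : ℕ, TopologicalSpace.induced
    (fun f : Cinf 𝕂 => (UniformFun.ofFun (der n f.1) : I →ᵤ 𝕂)) inferInstance

end H749Z.PS
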