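import Mathlib
import Pool.Agent.H749Z.PS.Defs

set_option autoImplicit false

namespace H749Z.PS

variable (𝕂 : Type) [RCLike 𝕂]

/-- The set `PS(I) ⊆ C(I)`: infinitely differentiable functions whose Taylor series has radius of
convergence `0` at every point of `I`. -/
def PSset : Set C(I, 𝕂) := {g | (g : I → 𝕂) ∈ Cinf 𝕂 ∧ ∀ x : I, rho (g : I → 𝕂) x = 0}

variable {𝕂}

/-- `S` is algebraically independent: for all distinct `f 1, …, f N ∈ S` and every nonzero
polynomial `P` in `N` variables without constant term, `P(f 1, …, f N) ≠ 0`. -/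
def AlgIndep (S : Set C(I, 𝕂)) : Prop :=
  ∀ (N : ℕ) (f : Fin N → C(I, 𝕂)), Function.Injective f → (∀ i, f i ∈ S) →
    ∀ P : MvPolynomial (Fin N) 𝕂, P ≠ 0 → MvPolynomial.constantCoeff P = 0 →
      MvPolynomial.aeval f P ≠ 0

end H749Z.PS
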