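import Mathlib

set_option autoImplicit false

open scoped ContDiff Nat Topology
open Filter Set Asymptotics

namespace H749Z.PS

/-- `d` vanishes to infinite order at `x`. -/
def Flat {F : Type} [NormedAddCommGroup F] (x : ℝ) (d : ℝ → F) : Prop :=
  ∀ n : ℕ, d =O[𝓝[≠] x] fun t => (t - x) ^ n

section
variable {F G : Type} [NormedAddCommGroup F] [NormedSpace ℝ F] [NormedAddCommGroup G]
  [NormedSpace ℝ G] {x : ℝ}

theorem tendsto_sub_self (x : ℝ) : Tendsto (fun t : ℝ => t - x) (𝓝[≠] x) (𝓝 0) := by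
  have : Tendsto (fun t : ℝ => t - x) (𝓝 x) (𝓝 (x - x)) := tendsto_id.sub_const x
  rw [sub_self] at this
  exact this.mono_left nhdsWithin_le_nhds

omit [NormedSpace ℝ F] in
theorem Flat.tendsto {d : ℝ → F} (h : Flat x d) : Tendsto d (𝓝[≠] x) (𝓝 0) :=
  (h 1).trans_tendsto (by simpa using tendsto_sub_self x)

omit [NormedSpace ℝ F] in
theorem Flat.congr {d e : ℝ → F} (h : Flat x d) (he : d =ᶠ[𝓝[≠] x] e) : Flat x e :=
  fun n => (h n).congr' he EventuallyEq.rfl

omit [NormedSpace ℝ F] [NormedSpace ℝ G] in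
theorem Flat.of_isBigO {d : ℝ → F} {e : ℝ → G} (h : Flat x d) (he : e =O[𝓝[≠] x] d) : Flat x e :=
  fun n => he.trans (h n)

theorem Flat.div {d : ℝ → F} (h : Flat x d) (k : ℕ) : Flat x fun t => ((t - x) ^ k)⁻¹ • d t := by
  intro n
  refine ((isBigO_refl (fun t : ℝ => ((t - x) ^ k)⁻¹) _).smul (h (k + n))).congr'
    EventuallyEq.rfl ?_
  filter_upwards [self_mem_nhdsWithin] with t ht
  have : t - x ≠ 0 := sub_ne_zero.2 ht
  rw [smul_eq_mul, pow_add]
  field_simp

theorem Flat.comp {a b : ℝ → F} {p : F} {r : F → G} (hr : AnalyticAt ℝ r p)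
    (ha : Tendsto a (𝓝[≠] x) (𝓝 p)) (hb : Tendsto b (𝓝[≠] x) (𝓝 p))
    (h : Flat x fun t => a t - b t) : Flat x fun t => r (a t) - r (b t) :=
  h.of_isBigO (hr.hasStrictFDerivAt.isBigO_sub.comp_tendsto (ha.prodMk_nhds hb))

theorem analytic_div {H : ℝ → F} (hH : AnalyticAt ℝ H x) {k : ℕ} {A : F} (hA : A ≠ 0)
    (h : Tendsto (fun t => ((t - x) ^ k)⁻¹ • H t) (𝓝[≠] x) (𝓝 A)) :
    ∃ v : ℝ → F, AnalyticAt ℝ v x ∧ v x = A ∧
      ∀ᶠ t in 𝓝[≠] x, ((t - x) ^ k)⁻¹ • H t = v t := by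
  have h0 : ¬ ∀ᶠ t in 𝓝 x, H t = 0 := by
    intro h0
    refine hA (tendsto_nhds_unique h (tendsto_const_nhds.congr' ?_))
    filter_upwards [h0.filter_mono nhdsWithin_le_nhds] with t ht
    rw [ht, smul_zero]
  obtain ⟨j, v, hv, hv0, hv1⟩ := hH.exists_eventuallyEq_pow_smul_nonzero_iff.2 h0
  have hvt : Tendsto v (𝓝[≠] x) (𝓝 (v x)) := hv.continuousAt.tendsto.mono_left nhdsWithin_le_nhds
  rcases lt_or_ge j k with hjk | hjk
  · exfalso
    obtain ⟨m, rfl⟩ : ∃ m, k = j + (m + 1) := ⟨k - j - 1, by omega⟩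
    have h1 := ((tendsto_sub_self x).pow (m + 1)).smul h
    rw [zero_pow (by omega), zero_smul] at h1
    refine hv0 (tendsto_nhds_unique hvt (h1.congr' ?_))
    filter_upwards [self_mem_nhdsWithin, hv1.filter_mono nhdsWithin_le_nhds] with t ht ht'
    have : t - x ≠ 0 := sub_ne_zero.2 ht
    rw [ht', smul_smul, smul_smul, pow_add _ j, show (t - x) ^ (m + 1) *
      ((t - x) ^ j * (t - x) ^ (m + 1))⁻¹ * (t - x) ^ j = 1 by field_simp, one_smul]
  · obtain ⟨m, rfl⟩ : ∃ m, j = k + m := ⟨j - k, by omega⟩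
    have han : AnalyticAt ℝ (fun t => (t - x) ^ m • v t) x :=
      ((analyticAt_id.sub analyticAt_const).pow m).smul hv
    have hev : ∀ᶠ t in 𝓝[≠] x, ((t - x) ^ k)⁻¹ • H t = (t - x) ^ m • v t := by
      filter_upwards [self_mem_nhdsWithin, hv1.filter_mono nhdsWithin_le_nhds] with t ht ht'
      have : t - x ≠ 0 := sub_ne_zero.2 ht
      rw [ht', smul_smul, pow_add, show ((t - x) ^ k)⁻¹ * ((t - x) ^ k * (t - x) ^ m) =
        (t - x) ^ m by field_simp]
    exact ⟨_, han, tendsto_nhds_unique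
      (han.continuousAt.tendsto.mono_left nhdsWithin_le_nhds) (h.congr' hev), hev⟩

end

theorem exists_local_inverse {𝕂 : Type} [RCLike 𝕂] {f : 𝕂 → 𝕂} {a : 𝕂} (hf : AnalyticAt 𝕂 f a)
    (hf' : deriv f a ≠ 0) : ∃ r : 𝕂 → 𝕂, AnalyticAt 𝕂 r (f a) ∧ r (f a) = a ∧
      (∀ᶠ z in 𝓝 a, r (f z) = z) ∧ ∀ᶠ z in 𝓝 (f a), f (r z) = z :=
  ⟨_, hf.analyticAt_localInverse hf', HasStrictFDerivAt.localInverse_apply_image ..,
    HasStrictDerivAt.eventually_left_inverse .., HasStrictDerivAt.eventually_right_inverse ..⟩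

variable {𝕂 : Type} [RCLike 𝕂]

theorem exists_root {k : ℕ} (hk : k ≠ 0) : ∃ r : 𝕂 → 𝕂, AnalyticAt ℝ r 1 ∧ r 1 = 1 ∧
      (∀ᶠ z in 𝓝 (1 : 𝕂), r (z ^ k) = z) ∧ ∀ᶠ z in 𝓝 (1 : 𝕂), r z ^ k = z := by
  obtain ⟨r, h1, h2, h3, h4⟩ := exists_local_inverse (𝕂 := 𝕂) (f := fun z => z ^ k) (a := 1)
    (analyticAt_id.pow k) (by simpa using hk)
  simp only [one_pow] at h1 h2 h4
  exact ⟨r, h1.restrictScalars, h2, h3, h4⟩

theorem flat_key {f : ℝ → ℝ} {x s : ℝ} (hf : HasDerivAt f s x) (hs : s ≠ 0) {E h : ℝ → 𝕂}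
    (hE : AnalyticAt ℝ E (f x)) (hE' : ¬ ∀ᶠ y in 𝓝 (f x), E y - E (f x) = 0)
    (hh : AnalyticAt ℝ h x) (hflat : Flat x fun t => E (f t) - h t) :
    ∃ A : ℝ → ℝ, AnalyticAt ℝ A x ∧ Flat x fun t => f t - A t := by
  obtain ⟨k, u, hu, hu0, hu1⟩ :=
    (hE.sub analyticAt_const).exists_eventuallyEq_pow_smul_nonzero_iff.2 hE'
  have hk : k ≠ 0 := by
    rintro rfl
    have := hu1.self_of_nhds
    simp only [Pi.sub_apply, sub_self, pow_zero, one_smul] at this
    exact hu0 this.symm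
  have hft : Tendsto f (𝓝[≠] x) (𝓝 (f x)) := hf.continuousAt.tendsto.mono_left nhdsWithin_le_nhds
  have hw : Tendsto (slope f x) (𝓝[≠] x) (𝓝 s) := hasDerivAt_iff_tendsto_slope.1 hf
  have hwe : ∀ t, t ≠ x → f t - f x = (t - x) * slope f x t := by
    intro t ht
    have : t - x ≠ 0 := sub_ne_zero.2 ht
    rw [slope_def_field]
    field_simp
  set A0 : 𝕂 := s ^ k • u (f x) with hA0
  have hA0ne : A0 ≠ 0 := smul_ne_zero (pow_ne_zero _ hs) hu0
  let A1 : ℝ → 𝕂 := fun t => slope f x t ^ k • u (f t)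
  have hA1 : Tendsto A1 (𝓝[≠] x) (𝓝 A0) := (hw.pow k).smul (hu.continuousAt.tendsto.comp hft)
  have hd1 := hflat.div k
  have hev : ∀ᶠ t in 𝓝[≠] x, ((t - x) ^ k)⁻¹ • (h t - E (f x)) =
      A1 t - ((t - x) ^ k)⁻¹ • (E (f t) - h t) := by
    filter_upwards [self_mem_nhdsWithin, hft.eventually hu1] with t ht ht'
    have h1 : t - x ≠ 0 := sub_ne_zero.2 ht
    have h2 : A1 t = ((t - x) ^ k)⁻¹ • (E (f t) - E (f x)) := by
      simp only [Pi.sub_apply] at ht'
      rw [ht', hwe t ht, mul_pow, smul_smul, ← mul_assoc, inv_mul_cancel₀ (pow_ne_zero _ h1),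
        one_mul]
    rw [h2, ← smul_sub]
    congr 1
    ring
  obtain ⟨v, hv, hv0, hv1⟩ := analytic_div (hh.sub analyticAt_const) (k := k) hA0ne
    (Tendsto.congr' (EventuallyEq.symm hev) (by simpa using hA1.sub hd1.tendsto))
  have hvt : Tendsto v (𝓝[≠] x) (𝓝 A0) :=
    hv0 ▸ hv.continuousAt.tendsto.mono_left nhdsWithin_le_nhds
  obtain ⟨r, hr, hr1, hr2, hr3⟩ := exists_root (𝕂 := 𝕂) hk
  have hfl2 : Flat x fun t => A1 t / A0 - v t / A0 := by
    refine (hd1.of_isBigO ((isBigO_refl _ _).const_mul_left A0⁻¹)).congr ?_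
    filter_upwards [hev, hv1] with t h1 h2
    simp only [Pi.sub_apply] at h2
    rw [← h2, h1]
    ring
  have t1 : Tendsto (fun t => A1 t / A0) (𝓝[≠] x) (𝓝 1) := by
    simpa [hA0ne] using hA1.div_const A0
  have t2 : Tendsto (fun t => v t / A0) (𝓝[≠] x) (𝓝 1) := by
    simpa [hA0ne] using hvt.div_const A0
  have hfl3 := Flat.comp hr t1 t2 hfl2
  have t3 : Tendsto (fun t => u (f t) / u (f x)) (𝓝[≠] x) (𝓝 1) := by
    simpa [hu0] using (hu.continuousAt.tendsto.comp hft).div_const (u (f x))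
  have t4 : Tendsto (fun t => (slope f x t / s) • r (u (f t) / u (f x))) (𝓝[≠] x) (𝓝 1) := by
    have := (hw.div_const s).smul (hr.continuousAt.tendsto.comp t3)
    simpa [hs, hr1] using this
  have hroot : ∀ᶠ t in 𝓝[≠] x, r (A1 t / A0) = (slope f x t / s) • r (u (f t) / u (f x)) := by
    filter_upwards [t4.eventually hr2, t3.eventually hr3] with t h1 h2
    rw [← h1, smul_pow, h2]
    congr 1
    have : (s : 𝕂) ≠ 0 := by exact_mod_cast hs
    simp only [A1, hA0, RCLike.real_smul_eq_coe_mul]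
    push_cast
    rw [div_pow]
    field_simp
  let Φ : ℝ → ℝ := fun y => (y - f x) * RCLike.re (r (u y / u (f x)))
  let Gf : ℝ → ℝ := fun t => s * (t - x) * RCLike.re (r (v t / A0))
  have hre : ∀ z : 𝕂, AnalyticAt ℝ (fun w : 𝕂 => RCLike.re w) z := fun z =>
    (RCLike.reCLM (K := 𝕂)).analyticAt z
  have hq : AnalyticAt ℝ (fun y => RCLike.re (r (u y / u (f x)))) (f x) :=
    (hre _).comp (AnalyticAt.comp_of_eq hr (hu.div_const) (div_self hu0))
  have hΦ : AnalyticAt ℝ Φ (f x) := (analyticAt_id.sub analyticAt_const).mul hq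
  have hΦ' : deriv Φ (f x) ≠ 0 := by
    have := (((hasDerivAt_id (f x)).sub_const (f x)).mul hq.differentiableAt.hasDerivAt).deriv
    have e : deriv Φ (f x) = 1 := by
      refine Eq.trans this ?_
      simp [div_self hu0, hr1]
    rw [e]
    exact one_ne_zero
  have hG : AnalyticAt ℝ Gf x :=
    (analyticAt_const.mul (analyticAt_id.sub analyticAt_const)).mul
      ((hre _).comp (AnalyticAt.comp_of_eq hr (hv.div_const) (by rw [hv0, div_self hA0ne])))
  have hfl4 : Flat x fun t => Φ (f t) - Gf t := by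
    have b1 : (fun t => s * (t - x)) =O[𝓝[≠] x] fun _ => (1 : ℝ) :=
      ((tendsto_sub_self x).const_mul s).isBigO_one ℝ
    have b2 : (fun t => RCLike.re (r (A1 t / A0) - r (v t / A0))) =O[𝓝[≠] x]
        fun t => r (A1 t / A0) - r (v t / A0) :=
      IsBigO.of_bound' (Eventually.of_forall fun t => RCLike.norm_re_le_norm _)
    have b3 := hfl3.of_isBigO b2
    refine (b3.of_isBigO (by simpa using b1.mul (isBigO_refl
      (fun t => RCLike.re (r (A1 t / A0) - r (v t / A0))) _))).congr ?_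
    filter_upwards [self_mem_nhdsWithin, hroot] with t ht h1
    simp only [Φ, Gf]
    rw [h1, hwe t ht, RCLike.smul_re]
    field_simp
  obtain ⟨Ψ, hΨ, -, hΨ2, -⟩ := exists_local_inverse hΦ hΦ'
  have e0 : Gf x = Φ (f x) := by simp [Gf, Φ]
  refine ⟨fun t => Ψ (Gf t), AnalyticAt.comp_of_eq hΨ hG e0, ?_⟩
  refine (Flat.comp hΨ (hΦ.continuousAt.tendsto.comp hft)
    (e0 ▸ hG.continuousAt.tendsto.mono_left nhdsWithin_le_nhds) hfl4).congr ?_
  filter_upwards [hft.eventually hΨ2] with t ht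
  simp only [Function.comp_apply, ht]

/-- `c` is the sequence of coefficients of an asymptotic expansion of `g` at `x`. -/
def HasExp (x : ℝ) (g : ℝ → 𝕂) (c : ℕ → 𝕂) : Prop :=
  ∀ N : ℕ, (fun t => g t - ∑ n ∈ Finset.range N, (t - x) ^ n • c n) =O[𝓝[≠] x]
    fun t => (t - x) ^ N

theorem HasExp.flat {x : ℝ} {g h : ℝ → 𝕂} {c : ℕ → 𝕂} (hg : HasExp x g c) (hh : HasExp x h c) :
    Flat x fun t => g t - h t := fun N => by
  simpa using (hg N).sub (hh N)

theorem HasExp.of_flat {x : ℝ} {g h : ℝ → 𝕂} {c : ℕ → 𝕂} (hh : HasExp x h c)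
    (hg : Flat x fun t => g t - h t) : HasExp x g c := fun N => by
  simpa using (hg N).add (hh N)

theorem HasExp.unique {x : ℝ} {g : ℝ → 𝕂} {c d : ℕ → 𝕂} (hc : HasExp x g c) (hd : HasExp x g d) :
    c = d := by
  funext N
  induction N using Nat.strong_induction_on with
  | _ N ih =>
    have h1 := (hd (N + 1)).sub (hc (N + 1))
    have e : ∀ t : ℝ, ∑ n ∈ Finset.range N, (t - x) ^ n • c n =
        ∑ n ∈ Finset.range N, (t - x) ^ n • d n := fun t =>
      Finset.sum_congr rfl fun n hn => by rw [ih n (Finset.mem_range.1 hn)]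
    have h2 := (isBigO_refl (fun t : ℝ => ((t - x) ^ N)⁻¹) _).smul h1
    have h3 : (fun _ : ℝ => c N - d N) =O[𝓝[≠] x] fun t => t - x := by
      refine h2.congr' ?_ ?_
      · filter_upwards [self_mem_nhdsWithin] with t ht
        have : (t - x) ^ N ≠ 0 := pow_ne_zero _ (sub_ne_zero.2 ht)
        rw [Finset.sum_range_succ, Finset.sum_range_succ, e, sub_sub_sub_cancel_left,
          add_sub_add_left_eq_sub, ← smul_sub, smul_smul, inv_mul_cancel₀ this, one_smul]
      · filter_upwards [self_mem_nhdsWithin] with t ht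
        have : t - x ≠ 0 := sub_ne_zero.2 ht
        rw [smul_eq_mul, pow_succ]
        field_simp
    exact sub_eq_zero.1 (tendsto_nhds_unique tendsto_const_nhds
      (h3.trans_tendsto (tendsto_sub_self x)))

theorem hasExp_of_contDiff {g : ℝ → 𝕂} (hg : ContDiff ℝ ∞ g) (x : ℝ) :
    HasExp x g fun n => iteratedDeriv n g x / (n ! : 𝕂) := by
  intro N
  have h1 := (taylor_isLittleO_univ (x₀ := x) (n := N)
    (hg.of_le (by exact_mod_cast le_top))).isBigO
  have h2 : (fun t : ℝ => (t - x) ^ N • (iteratedDeriv N g x / (N ! : 𝕂))) =O[𝓝 x]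
      fun t => (t - x) ^ N := by
    simpa using (isBigO_refl (fun t : ℝ => (t - x) ^ N) (𝓝 x)).smul
      (isBigO_const_const (iteratedDeriv N g x / (N ! : 𝕂)) (one_ne_zero (α := ℝ)) (𝓝 x))
  refine ((h1.add h2).mono nhdsWithin_le_nhds).congr_left fun t => ?_
  rw [taylor_within_apply, Finset.sum_range_succ, iteratedDerivWithin_univ]
  have e : ∀ n : ℕ, ((n ! : ℝ)⁻¹ * (t - x) ^ n) • iteratedDeriv n g x =
      (t - x) ^ n • (iteratedDeriv n g x / (n ! : 𝕂)) := by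
    intro n
    simp only [RCLike.real_smul_eq_coe_mul]
    push_cast
    ring
  simp only [iteratedDerivWithin_univ, e]
  ring

theorem hasExp_of_series {H : 𝕂 → 𝕂} {c : ℕ → 𝕂} {x : ℝ}
    (h : HasFPowerSeriesAt H (FormalMultilinearSeries.ofScalars 𝕂 c) (x : 𝕂)) :
    HasExp x (fun t => H t) c := by
  intro N
  have t1 : Tendsto (fun t : ℝ => ((t - x : ℝ) : 𝕂)) (𝓝[≠] x) (𝓝 0) := by
    have := (RCLike.continuous_ofReal (K := 𝕂)).continuousAt.tendsto.comp (tendsto_sub_self x)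
    rw [RCLike.ofReal_zero] at this
    exact this
  have h1 := (h.isBigO_sub_partialSum_pow N).comp_tendsto t1
  refine (h1.congr_left fun t => ?_).trans ?_
  · simp only [Function.comp_apply, FormalMultilinearSeries.partialSum,
      FormalMultilinearSeries.ofScalars_apply_eq, RCLike.real_smul_eq_coe_mul, smul_eq_mul]
    push_cast
    simp only [add_sub_cancel, mul_comm]
  · refine IsBigO.of_bound' (Eventually.of_forall fun t => ?_)
    simp only [Function.comp_apply, RCLike.norm_ofReal, norm_pow, Real.norm_eq_abs, abs_abs, le_refl]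

theorem exists_analytic_of_radius {c : ℕ → 𝕂} (x : ℝ)
    (hc : (FormalMultilinearSeries.ofScalars 𝕂 c).radius ≠ 0) :
    ∃ h : ℝ → 𝕂, AnalyticAt ℝ h x ∧ HasExp x h c := by
  have h1 := ((FormalMultilinearSeries.ofScalars 𝕂 c).hasFPowerSeriesOnBall
    (pos_iff_ne_zero.2 hc)).comp_sub (x : 𝕂)
  rw [zero_add] at h1
  refine ⟨_, ?_, hasExp_of_series h1.hasFPowerSeriesAt⟩
  exact AnalyticAt.comp (x := x) (f := fun t : ℝ => (t : 𝕂))
    h1.hasFPowerSeriesAt.analyticAt.restrictScalars ((RCLike.ofRealCLM (K := 𝕂)).analyticAt x)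

theorem radius_comp_eq_zero {F : ℝ → ℝ} (hF : ContDiff ℝ ∞ F) {M x : ℝ} (hM : deriv F x + M ≠ 0)
    (h0 : (FormalMultilinearSeries.ofScalars ℝ fun n => iteratedDeriv n F x / (n ! : ℝ)).radius = 0)
    {E : ℝ → 𝕂} (hE : ∀ y, AnalyticAt ℝ E y) (hE' : ∀ c, ¬ ∀ y, E y = c) :
    (FormalMultilinearSeries.ofScalars 𝕂
      fun n => iteratedDeriv n (fun t => E (F t + M * t)) x / (n ! : 𝕂)).radius = 0 := by
  by_contra hne
  obtain ⟨h, hh, hh'⟩ := exists_analytic_of_radius x hne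
  have hEc : ContDiff ℝ ∞ E := contDiff_iff_contDiffAt.2 fun y => (hE y).contDiffAt
  have hg : ContDiff ℝ ∞ fun t => E (F t + M * t) := hEc.comp (hF.add (by fun_prop))
  have hd : HasDerivAt (fun t => F t + M * t) (deriv F x + M) x := by
    simpa using ((hF.differentiable (by simp)) x).hasDerivAt.fun_add ((hasDerivAt_id x).const_mul M)
  obtain ⟨A, hA, hA'⟩ := flat_key hd hM (hE _) (fun hev => hE' (E (F x + M * x)) fun y => by
    have := AnalyticOnNhd.eqOn_zero_of_preconnected_of_eventuallyEq_zero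
      (f := fun y => E y - E (F x + M * x)) (U := univ)
      (fun y _ => (hE y).sub analyticAt_const) isPreconnected_univ (mem_univ _) hev (mem_univ y)
    exact sub_eq_zero.1 this) hh ((hasExp_of_contDiff hg x).flat hh')
  have hB : AnalyticAt ℝ (fun t => A t - M * t) x := hA.sub (analyticAt_const.mul analyticAt_id)
  have e1 := (hasExp_of_series (𝕂 := ℝ) hB.hasFPowerSeriesAt).of_flat (g := F)
    (hA'.congr (Eventually.of_forall fun t => by simp only [RCLike.ofReal_real_eq_id, id]; ring))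
  have e2 := (hasExp_of_contDiff (𝕂 := ℝ) hF x).unique e1
  rw [e2] at h0
  exact hB.hasFPowerSeriesAt.radius_pos.ne' h0

end H749Z.PS
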