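import Mathlib
import Pool.Agent.H749Z.PS.Defs

set_option autoImplicit false

open scoped ContDiff UniformConvergence Nat BoundedContinuousFunction Topology
open Filter Set

namespace H749Z.PS

/-! Bumps. -/

noncomputable def bump (j : ℕ) : ContDiffBump ((3 / 4 : ℝ) * (1 / 2) ^ j) :=
  ⟨(1 / 16) * (1 / 2) ^ j, (1 / 8) * (1 / 2) ^ j, by positivity, by
    have : (0 : ℝ) < (1 / 2) ^ j := by positivity
    linarith⟩

noncomputable def hb (j : ℕ) : ℝ → ℝ := bump j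

theorem hb_contDiff (j : ℕ) : ContDiff ℝ ∞ (hb j) := (bump j).contDiff

theorem hb_tsupport (j : ℕ) :
    tsupport (hb j) = Icc ((5 / 8) * (1 / 2) ^ j) ((7 / 8) * (1 / 2) ^ j) := by
  rw [hb, ContDiffBump.tsupport_eq, Real.closedBall_eq_Icc]
  simp only [bump]
  congr 1 <;> ring

theorem hb_zero {j : ℕ} {y : ℝ} (h : y ∉ Icc ((5 / 8 : ℝ) * (1 / 2) ^ j) ((7 / 8) * (1 / 2) ^ j)) :
    hb j y = 0 := by
  rw [← hb_tsupport] at h
  exact image_eq_zero_of_notMem_tsupport h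

theorem hb_deriv_zero {j : ℕ} {y : ℝ} (m : ℕ)
    (h : y ∉ Icc ((5 / 8 : ℝ) * (1 / 2) ^ j) ((7 / 8) * (1 / 2) ^ j)) :
    iteratedDeriv m (hb j) y = 0 := by
  rw [← hb_tsupport, notMem_tsupport_iff_eventuallyEq] at h
  rw [h.iteratedDeriv_eq m]
  simp

theorem half_pow_cases (j k : ℕ) : j = k ∨ 2 * (1 / 2 : ℝ) ^ j ≤ (1 / 2) ^ k ∨
    2 * (1 / 2 : ℝ) ^ k ≤ (1 / 2) ^ j := by
  have key : ∀ a b : ℕ, a < b → 2 * (1 / 2 : ℝ) ^ b ≤ (1 / 2) ^ a := by
    intro a b hab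
    have : (1 / 2 : ℝ) ^ b ≤ (1 / 2) ^ (a + 1) :=
      pow_le_pow_of_le_one (by norm_num) (by norm_num) hab
    rw [pow_succ] at this
    linarith
  rcases lt_trichotomy j k with h | h | h
  · exact Or.inr (Or.inr (key _ _ h))
  · exact Or.inl h
  · exact Or.inr (Or.inl (key _ _ h))

theorem hb_center (j k : ℕ) : hb j ((3 / 4) * (1 / 2) ^ k) = if j = k then 1 else 0 := by
  split_ifs with h
  · subst h
    exact (bump j).one_of_mem_closedBall (Metric.mem_closedBall_self (bump j).rIn_pos.le)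
  · apply hb_zero
    have h1 : (0 : ℝ) < (1 / 2) ^ j := by positivity
    have h2 : (0 : ℝ) < (1 / 2) ^ k := by positivity
    rintro ⟨h3, h4⟩
    rcases half_pow_cases j k with h5 | h5 | h5
    · exact h h5
    · linarith
    · linarith

theorem hb_deriv_gap (j k m : ℕ) : iteratedDeriv m (hb j) ((1 / 2) ^ k) = 0 := by
  apply hb_deriv_zero
  have h1 : (0 : ℝ) < (1 / 2) ^ j := by positivity
  have h2 : (0 : ℝ) < (1 / 2) ^ k := by positivity
  rintro ⟨h3, h4⟩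
  rcases half_pow_cases j k with h5 | h5 | h5
  · subst h5
    linarith
  · linarith
  · linarith

theorem hb_zero_of_large {j K : ℕ} (hj : K ≤ j) {y : ℝ} (hy : (1 / 2) ^ K ≤ y) : hb j y = 0 := by
  apply hb_zero
  have h1 : (0 : ℝ) < (1 / 2) ^ j := by positivity
  have : (1 / 2 : ℝ) ^ j ≤ (1 / 2) ^ K := pow_le_pow_of_le_one (by norm_num) (by norm_num) hj
  rintro ⟨_, h4⟩
  linarith

theorem hb_zero_of_nonpos (j : ℕ) {y : ℝ} (hy : y ≤ 0) : hb j y = 0 := by
  apply hb_zero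
  have h1 : (0 : ℝ) < (1 / 2) ^ j := by positivity
  rintro ⟨h3, _⟩
  linarith

theorem exists_hb_bound (j m : ℕ) : ∃ C : ℝ, 0 ≤ C ∧ ∀ y, |iteratedDeriv m (hb j) y| ≤ C := by
  have hc : Continuous (iteratedDeriv m (hb j)) :=
    (hb_contDiff j).continuous_iteratedDeriv m (by exact_mod_cast le_top)
  obtain ⟨C, hC⟩ := (isCompact_Icc (a := (5 / 8 : ℝ) * (1 / 2) ^ j)
    (b := (7 / 8) * (1 / 2) ^ j)).exists_bound_of_continuousOn hc.continuousOn
  refine ⟨max C 0, le_max_right _ _, fun y => ?_⟩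
  by_cases hy : y ∈ Icc ((5 / 8 : ℝ) * (1 / 2) ^ j) ((7 / 8) * (1 / 2) ^ j)
  · exact (hC y hy).trans (le_max_left _ _)
  · rw [hb_deriv_zero m hy, abs_zero]
    exact le_max_right _ _

noncomputable def hC (j m : ℕ) : ℝ := (exists_hb_bound j m).choose

theorem hC_nonneg (j m : ℕ) : 0 ≤ hC j m := (exists_hb_bound j m).choose_spec.1

theorem hC_spec (j m : ℕ) (y : ℝ) : |iteratedDeriv m (hb j) y| ≤ hC j m :=
  (exists_hb_bound j m).choose_spec.2 y

/-! Frequencies. -/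

noncomputable def G (n : ℕ) : ℝ :=
  1 + ∑ j ∈ Finset.range n, (hC j (4 * n + 2) + hC j (4 * n + 3)) +
    ((4 * n + 3)! : ℝ) * (n + 1) ^ (4 * n + 3)

noncomputable def fr : ℕ → ℝ
  | n => max (2 ^ (n + 2)) ((n + 1) * (∑ i : Fin n, fr i ^ (4 * n + 3) + G n))
  decreasing_by exact i.2

theorem fr_ge (n : ℕ) : 2 ^ (n + 2) ≤ fr n := by
  rw [fr]; exact le_max_left _ _

theorem fr_ge' (n : ℕ) : (n + 1) * (∑ i ∈ Finset.range n, fr i ^ (4 * n + 3) + G n) ≤ fr n := by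
  rw [Finset.sum_range]
  conv_rhs => rw [fr]
  exact le_max_right _ _

theorem one_le_fr (n : ℕ) : 1 ≤ fr n := (one_le_pow₀ (by norm_num)).trans (fr_ge n)

theorem fr_pos (n : ℕ) : 0 < fr n := one_pos.trans_le (one_le_fr n)

noncomputable def am (n : ℕ) : ℝ := (fr n ^ (4 * n + 1))⁻¹

theorem am_pos (n : ℕ) : 0 < am n := inv_pos.2 (pow_pos (fr_pos n) _)

theorem am_le_one (n : ℕ) : am n ≤ 1 := inv_le_one_of_one_le₀ (one_le_pow₀ (one_le_fr n))

theorem am_mul_le {n m : ℕ} (h : m ≤ 4 * n) : am n * fr n ^ m ≤ (1 / 4) * (1 / 2) ^ n := by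
  have h1 : fr n ^ m ≤ fr n ^ (4 * n) := pow_le_pow_right₀ (one_le_fr n) h
  have h2 : am n * fr n ^ (4 * n) = (fr n)⁻¹ := by
    have := (fr_pos n).ne'
    rw [am, pow_succ]
    field_simp
  have h3 : (fr n)⁻¹ ≤ (2 ^ (n + 2))⁻¹ := inv_anti₀ (by positivity) (fr_ge n)
  have h4 : ((2 : ℝ) ^ (n + 2))⁻¹ = (1 / 4) * (1 / 2) ^ n := by
    rw [pow_add, one_div, one_div, inv_pow]
    field_simp
    norm_num
  calc am n * fr n ^ m ≤ am n * fr n ^ (4 * n) := by
        have := (am_pos n).le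
        gcongr
    _ ≤ _ := by rw [h2, ← h4]; exact h3

theorem le_am_mul {n m : ℕ} (h : 4 * n + 2 ≤ m) : fr n ≤ am n * fr n ^ m := by
  have h1 : fr n ^ (4 * n + 2) ≤ fr n ^ m := pow_le_pow_right₀ (one_le_fr n) h
  have h2 : am n * fr n ^ (4 * n + 2) = fr n := by
    have := (fr_pos n).ne'
    rw [am, pow_succ _ (4 * n + 1)]
    field_simp
  calc fr n = am n * fr n ^ (4 * n + 2) := h2.symm
    _ ≤ _ := by
      have := (am_pos n).le
      gcongr

theorem summable_am (m : ℕ) : Summable fun n => am n * fr n ^ m := by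
  rw [← summable_nat_add_iff m]
  refine Summable.of_nonneg_of_le (fun n => (mul_pos (am_pos _) (pow_pos (fr_pos _) _)).le)
    (fun n => am_mul_le (by omega)) ?_
  exact ((summable_nat_add_iff m).2 summable_geometric_two).mul_left _

theorem tsum_quarter : ∑' n : ℕ, (1 / 4 : ℝ) * (1 / 2) ^ n = 1 / 2 := by
  rw [tsum_mul_left, tsum_geometric_two]
  norm_num

theorem summable_quarter : Summable fun n : ℕ => (1 / 4 : ℝ) * (1 / 2) ^ n :=
  summable_geometric_two.mul_left _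

/-- The sum of all other terms. -/
theorem tsum_others (n m : ℕ) (hm : m ≤ 4 * n + 3) :
    ∑' i, (if i = n then 0 else am i * fr i ^ m) ≤
      ∑ i ∈ Finset.range n, fr i ^ (4 * n + 3) + 1 := by
  have s1 : Summable fun i : ℕ => if i < n then fr i ^ (4 * n + 3) else 0 := by
    refine summable_of_ne_finset_zero (s := Finset.range n) fun i hi => ?_
    rw [if_neg (by simpa using hi)]
  have e1 : ∑' i : ℕ, (if i < n then fr i ^ (4 * n + 3) else 0) =
      ∑ i ∈ Finset.range n, fr i ^ (4 * n + 3) := by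
    rw [tsum_eq_sum (s := Finset.range n) fun i hi => if_neg (by simpa using hi)]
    exact Finset.sum_congr rfl fun i hi => if_pos (by simpa using hi)
  have hle : ∀ i, (if i = n then 0 else am i * fr i ^ m) ≤
      (if i < n then fr i ^ (4 * n + 3) else 0) + (1 / 4) * (1 / 2) ^ i := by
    intro i
    have hq : (0 : ℝ) ≤ (1 / 4) * (1 / 2) ^ i := by positivity
    rcases lt_trichotomy i n with h | h | h
    · rw [if_neg h.ne, if_pos h]
      have h1 : fr i ^ m ≤ fr i ^ (4 * n + 3) := pow_le_pow_right₀ (one_le_fr i) hm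
      have h2 : am i * fr i ^ m ≤ 1 * fr i ^ m := by
        have := (pow_pos (fr_pos i) m).le
        have := am_le_one i
        gcongr
      linarith
    · rw [if_pos h, if_neg (by omega)]
      linarith
    · rw [if_neg h.ne', if_neg (by omega), zero_add]
      exact am_mul_le (by omega)
  have s0 : Summable fun i => if i = n then 0 else am i * fr i ^ m := by
    refine Summable.of_nonneg_of_le (fun i => ?_) hle (s1.add summable_quarter)
    split_ifs
    · exact le_rfl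
    · exact (mul_pos (am_pos _) (pow_pos (fr_pos _) _)).le
  calc _ ≤ ∑' i, ((if i < n then fr i ^ (4 * n + 3) else 0) + (1 / 4) * (1 / 2) ^ i) :=
        s0.tsum_le_tsum hle (s1.add summable_quarter)
    _ = _ + 1 / 2 := by rw [s1.tsum_add summable_quarter, e1, tsum_quarter]
    _ ≤ _ := by linarith

variable {𝕂 : Type} [RCLike 𝕂]

/-- One term of the lacunary series. -/
noncomputable def term (c : ℕ →ᵇ 𝕂) (n : ℕ) (x : ℝ) : 𝕂 :=
  (am n * Real.cos (fr n * x)) • c (Nat.unpair n).1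

theorem term_contDiff (c : ℕ →ᵇ 𝕂) (n : ℕ) : ContDiff ℝ ∞ (term c n) := by
  unfold term
  fun_prop

theorem term_deriv (c : ℕ →ᵇ 𝕂) (n m : ℕ) (x : ℝ) : iteratedDeriv m (term c n) x =
    (am n * fr n ^ m * iteratedDeriv m Real.cos (fr n * x)) • c (Nat.unpair n).1 := by
  unfold term
  rw [iteratedDeriv_smul_const (by fun_prop), iteratedDeriv_const_mul_field,
    iteratedDeriv_comp_const_mul Real.contDiff_cos, mul_assoc]

theorem norm_term_deriv (c : ℕ →ᵇ 𝕂) (n m : ℕ) (x : ℝ) : ‖iteratedDeriv m (term c n) x‖ =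
    am n * fr n ^ m * |iteratedDeriv m Real.cos (fr n * x)| * ‖c (Nat.unpair n).1‖ := by
  rw [term_deriv, norm_smul, Real.norm_eq_abs, abs_mul,
    abs_of_pos (mul_pos (am_pos _) (pow_pos (fr_pos _) _))]

theorem norm_term_deriv_le (c : ℕ →ᵇ 𝕂) (n m : ℕ) (x : ℝ) :
    ‖iteratedDeriv m (term c n) x‖ ≤ am n * fr n ^ m * ‖c‖ := by
  rw [norm_term_deriv]
  have h1 := Real.abs_iteratedDeriv_cos_le_one m (fr n * x)
  have h2 := c.norm_coe_le_norm (Nat.unpair n).1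
  have h3 := (mul_pos (am_pos n) (pow_pos (fr_pos n) m)).le
  calc _ ≤ am n * fr n ^ m * 1 * ‖c‖ := by gcongr
    _ = _ := by ring

noncomputable def Rc (c : ℕ →ᵇ 𝕂) (x : ℝ) : 𝕂 := ∑' n, term c n x

theorem Rc_contDiff (c : ℕ →ᵇ 𝕂) : ContDiff ℝ ∞ (Rc c) := by
  refine contDiff_tsum (N := ⊤) (v := fun m n => am n * fr n ^ m * ‖c‖) (term_contDiff c)
    (fun m _ => (summable_am m).mul_right _) fun m n x _ => ?_
  rw [norm_iteratedFDeriv_eq_norm_iteratedDeriv]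
  exact norm_term_deriv_le c n m x

theorem summable_term_deriv (c : ℕ →ᵇ 𝕂) (m : ℕ) (x : ℝ) :
    Summable fun n => iteratedDeriv m (term c n) x :=
  Summable.of_norm_bounded ((summable_am m).mul_right ‖c‖) fun n => norm_term_deriv_le c n m x

theorem summable_term (c : ℕ →ᵇ 𝕂) (x : ℝ) : Summable fun n => term c n x := by
  simpa using summable_term_deriv c 0 x

theorem Rc_deriv (c : ℕ →ᵇ 𝕂) (m : ℕ) (x : ℝ) :
    iteratedDeriv m (Rc c) x = ∑' n, iteratedDeriv m (term c n) x := by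
  have hb : ∀ (m n : ℕ) (x : ℝ), ‖iteratedFDeriv ℝ m (term c n) x‖ ≤ am n * fr n ^ m * ‖c‖ := by
    intro m n x
    rw [norm_iteratedFDeriv_eq_norm_iteratedDeriv]
    exact norm_term_deriv_le c n m x
  have h := iteratedFDeriv_tsum_apply (N := ⊤) (v := fun m n => am n * fr n ^ m * ‖c‖)
    (term_contDiff c) (fun m _ => (summable_am m).mul_right _) (fun m n x _ => hb m n x)
    (k := m) le_top x
  have hs : Summable fun n => iteratedFDeriv ℝ m (term c n) x :=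
    Summable.of_norm_bounded ((summable_am m).mul_right ‖c‖) fun n => hb m n x
  unfold Rc
  rw [iteratedDeriv_eq_iteratedFDeriv, h]
  exact ((ContinuousMultilinearMap.apply ℝ (fun _ : Fin m => ℝ) 𝕂 fun _ => 1).map_tsum hs)

theorem norm_Rc_le (c : ℕ →ᵇ 𝕂) (x : ℝ) : ‖Rc c x‖ ≤ ‖c‖ / 2 := by
  have h : ∀ n, ‖term c n x‖ ≤ (1 / 4) * (1 / 2) ^ n * ‖c‖ := by
    intro n
    have h1 := norm_term_deriv_le c n 0 x
    have h2 := am_mul_le (n := n) (m := 0) (by omega)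
    rw [iteratedDeriv_zero] at h1
    refine h1.trans ?_
    gcongr
  have := tsum_of_norm_bounded (summable_quarter.mul_right ‖c‖).hasSum h
  rw [tsum_mul_right, tsum_quarter] at this
  unfold Rc
  linarith

theorem Rc_deriv_ge (c : ℕ →ᵇ 𝕂) (n m : ℕ) (hm : m ≤ 4 * n + 3) (x : ℝ) :
    am n * fr n ^ m * |iteratedDeriv m Real.cos (fr n * x)| * ‖c (Nat.unpair n).1‖ -
      (∑ i ∈ Finset.range n, fr i ^ (4 * n + 3) + 1) * ‖c‖ ≤ ‖iteratedDeriv m (Rc c) x‖ := by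
  rw [Rc_deriv, (summable_term_deriv c m x).tsum_eq_add_tsum_ite n, ← norm_term_deriv]
  have s0 : Summable fun i => if i = n then 0 else am i * fr i ^ m := by
    refine Summable.of_nonneg_of_le (fun i => ?_) (fun i => ?_) (summable_am m)
    · split_ifs
      · exact le_rfl
      · exact (mul_pos (am_pos _) (pow_pos (fr_pos _) _)).le
    · split_ifs
      · exact (mul_pos (am_pos _) (pow_pos (fr_pos _) _)).le
      · exact le_rfl
  have h : ∀ i, ‖if i = n then 0 else iteratedDeriv m (term c i) x‖ ≤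
      (if i = n then 0 else am i * fr i ^ m) * ‖c‖ := by
    intro i
    split_ifs
    · simp
    · exact norm_term_deriv_le c i m x
  have h1 := tsum_of_norm_bounded (s0.mul_right ‖c‖).hasSum h
  rw [tsum_mul_right] at h1
  have h2 := mul_le_mul_of_nonneg_right (tsum_others n m hm) (norm_nonneg c)
  have h3 := norm_sub_le (iteratedDeriv m (term c n) x +
    ∑' i, if i = n then 0 else iteratedDeriv m (term c i) x)
    (∑' i, if i = n then 0 else iteratedDeriv m (term c i) x)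
  rw [add_sub_cancel_right] at h3
  linarith

/-! The bump part. -/

noncomputable def Hc (c : ℕ →ᵇ 𝕂) (x : ℝ) : 𝕂 := ∑' j, hb j x • c j

theorem exists_K (x : ℝ) : ∃ K : ℕ, ∀ j, K ≤ j → hb j x = 0 := by
  rcases le_or_gt x 0 with h | h
  · exact ⟨0, fun j _ => hb_zero_of_nonpos j h⟩
  · obtain ⟨K, hK⟩ := exists_pow_lt_of_lt_one h (show (1 / 2 : ℝ) < 1 by norm_num)
    exact ⟨K, fun j hj => hb_zero_of_large hj hK.le⟩

theorem Hc_eq_sum (c : ℕ →ᵇ 𝕂) {x : ℝ} {K : ℕ} (hK : ∀ j, K ≤ j → hb j x = 0) :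
    Hc c x = ∑ j ∈ Finset.range K, hb j x • c j := by
  refine tsum_eq_sum fun j hj => ?_
  rw [hK j (by simpa using hj), zero_smul]

theorem Hc_center (c : ℕ →ᵇ 𝕂) (k : ℕ) : Hc c ((3 / 4) * (1 / 2) ^ k) = c k := by
  unfold Hc
  rw [tsum_eq_single k fun j hj => by rw [hb_center, if_neg hj, zero_smul], hb_center, if_pos rfl,
    one_smul]

theorem Hc_eventuallyEq (c : ℕ →ᵇ 𝕂) {x : ℝ} {K : ℕ} (hK : (1 / 2) ^ K < x) :
    Hc c =ᶠ[𝓝 x] fun y => ∑ j ∈ Finset.range K, hb j y • c j := by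
  filter_upwards [Ioi_mem_nhds hK] with y hy
  exact Hc_eq_sum c fun j hj => hb_zero_of_large hj (le_of_lt hy)

theorem Hc_contDiffAt (c : ℕ →ᵇ 𝕂) {x : ℝ} (hx : 0 < x) : ContDiffAt ℝ ∞ (Hc c) x := by
  obtain ⟨K, hK⟩ := exists_pow_lt_of_lt_one hx (show (1 / 2 : ℝ) < 1 by norm_num)
  refine ContDiffAt.congr_of_eventuallyEq ?_ (Hc_eventuallyEq c hK)
  exact ContDiffAt.sum fun j _ => (hb_contDiff j).contDiffAt.smul contDiffAt_const

theorem Hc_deriv (c : ℕ →ᵇ 𝕂) {x : ℝ} {K : ℕ} (hK : (1 / 2) ^ K < x) (m : ℕ) :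
    iteratedDeriv m (Hc c) x = ∑ j ∈ Finset.range K, iteratedDeriv m (hb j) x • c j := by
  have hm : ∀ j, ContDiffAt ℝ m (hb j) x := fun j =>
    ((hb_contDiff j).of_le (by exact_mod_cast le_top)).contDiffAt
  rw [(Hc_eventuallyEq c hK).iteratedDeriv_eq m,
    iteratedDeriv_fun_sum (f := fun j y => hb j y • c j)
      fun j _ => (hm j).smul contDiffAt_const]
  exact Finset.sum_congr rfl fun j _ => iteratedDeriv_smul_const (hm j) _

theorem Hc_deriv_le (c : ℕ →ᵇ 𝕂) {x : ℝ} {K : ℕ} (hK : (1 / 2) ^ K < x) (m : ℕ) :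
    ‖iteratedDeriv m (Hc c) x‖ ≤ (∑ j ∈ Finset.range K, hC j m) * ‖c‖ := by
  rw [Hc_deriv c hK, Finset.sum_mul]
  refine (norm_sum_le _ _).trans (Finset.sum_le_sum fun j _ => ?_)
  rw [norm_smul, Real.norm_eq_abs]
  exact mul_le_mul (hC_spec j m x) (c.norm_coe_le_norm j) (norm_nonneg _) (hC_nonneg j m)

theorem Hc_deriv_gap (c : ℕ →ᵇ 𝕂) (k m : ℕ) : iteratedDeriv m (Hc c) ((1 / 2) ^ k) = 0 := by
  have : (1 / 2 : ℝ) ^ (k + 1) < (1 / 2) ^ k :=
    pow_lt_pow_right_of_lt_one₀ (by norm_num) (by norm_num) (by omega)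
  rw [Hc_deriv c this]
  exact Finset.sum_eq_zero fun j _ => by rw [hb_deriv_gap, zero_smul]

theorem Hc_derivWithin_le (c : ℕ →ᵇ 𝕂) (hc : ContDiffOn ℝ ∞ (Hc c) I) {x : ℝ} (hx : x ∈ I) :
    ∃ K : ℕ, ∀ n, K ≤ n → ∀ m,
      ‖iteratedDerivWithin m (Hc c) I x‖ ≤ (∑ j ∈ Finset.range n, hC j m) * ‖c‖ := by
  have hu : UniqueDiffOn ℝ I := uniqueDiffOn_Icc one_pos
  have hpos : ∀ {y : ℝ}, y ∈ I → 0 < y → ∀ m : ℕ,
      iteratedDerivWithin m (Hc c) I y = iteratedDeriv m (Hc c) y := fun hy h0 m =>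
    iteratedDerivWithin_eq_iteratedDeriv hu
      ((Hc_contDiffAt c h0).of_le (by exact_mod_cast le_top)) hy
  rcases hx.1.eq_or_lt with h | h
  · refine ⟨0, fun n _ m => ?_⟩
    have h1 : ContinuousWithinAt (iteratedDerivWithin m (Hc c) I) I x :=
      hc.continuousOn_iteratedDerivWithin (by exact_mod_cast le_top) hu x hx
    have hmem : ∀ k : ℕ, (1 / 2 : ℝ) ^ k ∈ I := fun k =>
      ⟨by positivity, pow_le_one₀ (by norm_num) (by norm_num)⟩
    have h2 : Tendsto (fun k : ℕ => (1 / 2 : ℝ) ^ k) atTop (𝓝[I] x) := by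
      rw [tendsto_nhdsWithin_iff]
      refine ⟨?_, Eventually.of_forall hmem⟩
      rw [← h]
      exact tendsto_pow_atTop_nhds_zero_of_lt_one (by norm_num) (by norm_num)
    have h3 := h1.tendsto.comp h2
    have h4 : (iteratedDerivWithin m (Hc c) I ∘ fun k : ℕ => (1 / 2 : ℝ) ^ k) = fun _ => 0 := by
      funext k
      simp only [Function.comp_apply]
      rw [hpos (hmem k) (by positivity), Hc_deriv_gap]
    rw [h4] at h3
    rw [tendsto_nhds_unique h3 tendsto_const_nhds, norm_zero]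
    exact mul_nonneg (Finset.sum_nonneg fun j _ => hC_nonneg j m) (norm_nonneg _)
  · obtain ⟨K, hK⟩ := exists_pow_lt_of_lt_one h (show (1 / 2 : ℝ) < 1 by norm_num)
    refine ⟨K, fun n hn m => ?_⟩
    rw [hpos hx h]
    exact Hc_deriv_le c ((pow_le_pow_of_le_one (by norm_num) (by norm_num) hn).trans_lt hK) m

/-- The parametrisation of the subspace. -/
noncomputable def T : (ℕ →ᵇ 𝕂) →ₗ[𝕂] (I → 𝕂) where
  toFun c x := Hc c x + Rc c x
  map_add' c d := by
    funext x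
    obtain ⟨K, hK⟩ := exists_K x
    have : Rc (c + d) x = Rc c x + Rc d x := by
      unfold Rc
      rw [← (summable_term c x).tsum_add (summable_term d x)]
      exact tsum_congr fun n => by simp [term]
    simp only [Pi.add_apply, Hc_eq_sum _ hK, this, BoundedContinuousFunction.add_apply, smul_add,
      Finset.sum_add_distrib]
    ring
  map_smul' a c := by
    funext x
    obtain ⟨K, hK⟩ := exists_K x
    have : Rc (a • c) x = a * Rc c x := by
      unfold Rc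
      rw [← tsum_mul_left]
      exact tsum_congr fun n => by simp [term]
    simp only [Pi.smul_apply, Hc_eq_sum _ hK, this, BoundedContinuousFunction.smul_apply,
      RingHom.id_apply, smul_eq_mul, mul_add, Finset.mul_sum, mul_smul_comm]

theorem T_apply (c : ℕ →ᵇ 𝕂) (x : I) : T c x = Hc c x + Rc c x := rfl

theorem norm_le_of_T (c : ℕ →ᵇ 𝕂) {ε : ℝ} (h : ∀ x, ‖T c x‖ ≤ ε) : ‖c‖ ≤ 2 * ε := by
  have h1 : ∀ k, ‖c k‖ ≤ ε + ‖c‖ / 2 := by
    intro k
    have hk : (3 / 4 : ℝ) * (1 / 2) ^ k ∈ I := by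
      have : (1 / 2 : ℝ) ^ k ≤ 1 := pow_le_one₀ (by norm_num) (by norm_num)
      exact ⟨by positivity, by linarith⟩
    have h2 := h ⟨_, hk⟩
    rw [T_apply, Hc_center] at h2
    have h3 := norm_Rc_le c ((3 / 4 : ℝ) * (1 / 2) ^ k)
    have h4 := norm_sub_le (c k + Rc c ((3 / 4 : ℝ) * (1 / 2) ^ k))
      (Rc c ((3 / 4 : ℝ) * (1 / 2) ^ k))
    rw [add_sub_cancel_right] at h4
    linarith
  have h0 : 0 ≤ ε + ‖c‖ / 2 := (norm_nonneg _).trans (h1 0)
  have := (BoundedContinuousFunction.norm_le h0).2 h1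
  linarith

theorem T_injective : Function.Injective (T (𝕂 := 𝕂)) := by
  rw [← LinearMap.ker_eq_bot, LinearMap.ker_eq_bot']
  intro c hc
  have := norm_le_of_T c (ε := 0) fun x => by rw [hc]; simp
  exact norm_le_zero_iff.1 (by linarith)

theorem continuous_T (x : I) : Continuous fun c : ℕ →ᵇ 𝕂 => T c x := by
  obtain ⟨K, hK⟩ := exists_K x
  let L : (ℕ →ᵇ 𝕂) →ₗ[𝕂] 𝕂 := (LinearMap.proj x).comp T
  refine AddMonoidHomClass.continuous_of_bound L (∑ j ∈ Finset.range K, |hb j x| + 1 / 2)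
    fun c => ?_
  change ‖Hc c x + Rc c x‖ ≤ _
  have h1 := norm_Rc_le c x
  have h2 : ‖Hc c x‖ ≤ (∑ j ∈ Finset.range K, |hb j x|) * ‖c‖ := by
    rw [Hc_eq_sum c hK, Finset.sum_mul]
    refine (norm_sum_le _ _).trans (Finset.sum_le_sum fun j _ => ?_)
    rw [norm_smul, Real.norm_eq_abs]
    exact mul_le_mul_of_nonneg_left (c.norm_coe_le_norm j) (abs_nonneg _)
  have h3 := norm_add_le (Hc c x) (Rc c x)
  linarith

theorem mem_range_of_approx (f : I → 𝕂)
    (h : ∀ ε > 0, ∃ c : ℕ →ᵇ 𝕂, ∀ x, ‖T c x - f x‖ ≤ ε) : ∃ c : ℕ →ᵇ 𝕂, T c = f := by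
  choose c hc using fun j : ℕ => h (1 / ((j : ℝ) + 1)) Nat.one_div_pos_of_nat
  have hcau : CauchySeq c := by
    refine cauchySeq_of_le_tendsto_0 (fun N : ℕ => 4 * (1 / ((N : ℝ) + 1))) (fun i j N hi hj => ?_) ?_
    · have h1 := norm_le_of_T (c i - c j) (ε := 2 * (1 / ((N : ℝ) + 1))) fun x => by
        have h2 := hc i x
        have h3 := hc j x
        have h4 : 1 / ((i : ℝ) + 1) ≤ 1 / ((N : ℝ) + 1) := Nat.one_div_le_one_div hi
        have h5 : 1 / ((j : ℝ) + 1) ≤ 1 / ((N : ℝ) + 1) := Nat.one_div_le_one_div hj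
        have h6 := norm_sub_le (T (c i) x - f x) (T (c j) x - f x)
        rw [sub_sub_sub_cancel_right] at h6
        rw [map_sub, Pi.sub_apply]
        linarith
      rw [dist_eq_norm]
      linarith
    · simpa using tendsto_one_div_add_atTop_nhds_zero_nat.const_mul (4 : ℝ)
  obtain ⟨d, hd⟩ := cauchySeq_tendsto_of_complete hcau
  refine ⟨d, funext fun x => ?_⟩
  have h1 : Tendsto (fun j => T (c j) x) atTop (𝓝 (T d x)) :=
    ((continuous_T x).tendsto d).comp hd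
  have h2 : Tendsto (fun j => T (c j) x) atTop (𝓝 (f x)) := by
    rw [tendsto_iff_norm_sub_tendsto_zero]
    exact squeeze_zero (fun j => norm_nonneg _) (fun j => hc j x)
      tendsto_one_div_add_atTop_nhds_zero_nat
  exact tendsto_nhds_unique h1 h2

theorem iccExtend_T (c : ℕ →ᵇ 𝕂) :
    EqOn (IccExtend zero_le_one (T c)) (fun x => Hc c x + Rc c x) I := fun x hx => by
  rw [IccExtend_of_mem _ _ hx, T_apply]

theorem cos_big (l : ℕ) (t : ℝ) : ∃ m, 2 * l ≤ m ∧ m ≤ 2 * l + 1 ∧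
    1 / 2 ≤ |iteratedDeriv m Real.cos t| := by
  by_cases h : 1 / 2 ≤ |Real.cos t|
  · refine ⟨2 * l, le_rfl, by omega, ?_⟩
    rw [Real.iteratedDeriv_even_cos]
    simpa [abs_mul] using h
  · refine ⟨2 * l + 1, by omega, le_rfl, ?_⟩
    rw [Real.iteratedDeriv_odd_cos]
    have h1 := Real.sin_sq_add_cos_sq t
    have h2 : 1 / 2 ≤ |Real.sin t| := by
      by_contra h3
      have h4 := abs_nonneg (Real.sin t)
      have h5 := abs_nonneg (Real.cos t)
      rw [← sq_abs (Real.sin t), ← sq_abs (Real.cos t)] at h1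
      nlinarith
    simpa [abs_mul] using h2

theorem rho_T (c : ℕ →ᵇ 𝕂) (hc : T c ∈ Cinf 𝕂) (h0 : c ≠ 0) (x : I) : rho (T c) x = 0 := by
  have hu : UniqueDiffOn ℝ I := uniqueDiffOn_Icc one_pos
  have hsum : ContDiffOn ℝ ∞ (fun x => Hc c x + Rc c x) I :=
    ContDiffOn.congr hc fun y hy => (iccExtend_T c hy).symm
  have hH : ContDiffOn ℝ ∞ (Hc c) I := by
    have := hsum.sub (Rc_contDiff c).contDiffOn
    simpa using this
  have hder : ∀ m : ℕ, der m (T c) x =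
      iteratedDerivWithin m (Hc c) I x + iteratedDeriv m (Rc c) x := by
    intro m
    have hR : ContDiffAt ℝ m (Rc c) x :=
      ((Rc_contDiff c).of_le (by exact_mod_cast le_top)).contDiffAt
    rw [der, iteratedDerivWithin_congr (iccExtend_T c) x.2,
      iteratedDerivWithin_fun_add x.2 hu ((hH x x.2).of_le (by exact_mod_cast le_top))
        hR.contDiffWithinAt, iteratedDerivWithin_eq_iteratedDeriv hu hR x.2]
  obtain ⟨k, hk⟩ : ∃ k, c k ≠ 0 := by
    by_contra h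
    push Not at h
    exact h0 (BoundedContinuousFunction.ext h)
  have hkpos : 0 < ‖c k‖ := norm_pos_iff.2 hk
  obtain ⟨K, hK⟩ := Hc_derivWithin_le c hH x.2
  by_contra hne
  obtain ⟨r, hr0, hr⟩ := ENNReal.lt_iff_exists_nnreal_btwn.1 (pos_iff_ne_zero.2 hne)
  have hr0' : (0 : ℝ) < r := by exact_mod_cast hr0
  obtain ⟨C, hC0, hCb⟩ := FormalMultilinearSeries.norm_mul_pow_le_of_lt_radius _ hr
  obtain ⟨j, hj⟩ := exists_nat_gt (max (max (K : ℝ) (1 / r)) (max (4 * ‖c‖ / ‖c k‖) (4 * C / ‖c k‖)))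
  simp only [max_lt_iff] at hj
  obtain ⟨⟨hj1, hj2⟩, hj3, hj4⟩ := hj
  set n := Nat.pair k j with hn
  have hjn : (j : ℝ) ≤ n := by exact_mod_cast Nat.right_le_pair k j
  have hKn : K ≤ n := by exact_mod_cast (hj1.le.trans hjn)
  obtain ⟨m, hm1, hm2, hm3⟩ := cos_big (2 * n + 1) (fr n * x)
  have hA := Rc_deriv_ge c n m (by omega) x
  have hun : (Nat.unpair n).1 = k := by simp [hn]
  rw [hun] at hA
  have hB := hK n hKn m
  have hB' : ∑ j ∈ Finset.range n, hC j m ≤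
      ∑ j ∈ Finset.range n, (hC j (4 * n + 2) + hC j (4 * n + 3)) := by
    refine Finset.sum_le_sum fun i _ => ?_
    have h1 := hC_nonneg i (4 * n + 2)
    have h2 := hC_nonneg i (4 * n + 3)
    obtain rfl | rfl : m = 4 * n + 2 ∨ m = 4 * n + 3 := by omega
    · linarith
    · linarith
  have hfr := fr_ge' n
  unfold G at hfr
  set S := ∑ i ∈ Finset.range n, fr i ^ (4 * n + 3) with hS
  set B := ∑ j ∈ Finset.range n, (hC j (4 * n + 2) + hC j (4 * n + 3)) with hBdef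
  set F := ((4 * n + 3)! : ℝ) * (n + 1) ^ (4 * n + 3) with hF
  have hS0 : 0 ≤ S := Finset.sum_nonneg fun i _ => (pow_pos (fr_pos i) _).le
  have hB0 : 0 ≤ B := Finset.sum_nonneg fun i _ => add_nonneg (hC_nonneg _ _) (hC_nonneg _ _)
  have hF0 : 0 ≤ F := by positivity
  have hn1 : (0 : ℝ) < n + 1 := by positivity
  have hc0 := norm_nonneg c
  have h1 : fr n * (1 / 2) * ‖c k‖ ≤
      am n * fr n ^ m * |iteratedDeriv m Real.cos (fr n * x)| * ‖c k‖ := by
    have := le_am_mul (n := n) (m := m) (by omega)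
    have := (fr_pos n).le
    have := (mul_pos (am_pos n) (pow_pos (fr_pos n) m)).le
    gcongr
  have h2 : 4 * ‖c‖ ≤ (n + 1) * ‖c k‖ := by
    rw [div_lt_iff₀ hkpos] at hj3
    nlinarith
  have h3 : (S + 1 + B) * ‖c‖ ≤ fr n * ‖c k‖ / 4 := by
    have h4 : (n + 1) * (S + 1 + B) ≤ fr n := by nlinarith
    have h5 : (S + 1 + B) * (4 * ‖c‖) ≤ (S + 1 + B) * ((n + 1) * ‖c k‖) := by gcongr
    have h6 : (n + 1) * (S + 1 + B) * ‖c k‖ ≤ fr n * ‖c k‖ := by gcongr
    nlinarith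
  have h4 : fr n * ‖c k‖ / 4 ≤ ‖der m (T c) x‖ := by
    rw [hder]
    have h5 := norm_sub_le (iteratedDerivWithin m (Hc c) I x + iteratedDeriv m (Rc c) x)
      (iteratedDerivWithin m (Hc c) I x)
    rw [add_sub_cancel_left] at h5
    have h6 : (∑ j ∈ Finset.range n, hC j m) * ‖c‖ ≤ B * ‖c‖ := by gcongr
    nlinarith
  have h5 := hCb m
  rw [FormalMultilinearSeries.ofScalars_norm, norm_div, RCLike.norm_natCast] at h5
  have hmf : (0 : ℝ) < m ! := by exact_mod_cast Nat.factorial_pos m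
  have h6 : (m ! : ℝ) * (n + 1) ^ m ≤ F := by
    have h7 : (m ! : ℝ) ≤ (4 * n + 3)! := by exact_mod_cast Nat.factorial_le (by omega)
    have h8 : ((n : ℝ) + 1) ^ m ≤ (n + 1) ^ (4 * n + 3) :=
      pow_le_pow_right₀ (by linarith [(Nat.cast_nonneg n : (0 : ℝ) ≤ n)]) (by omega)
    rw [hF]
    gcongr
  have h7 : (n + 1) * ((m ! : ℝ) * (n + 1) ^ m) ≤ fr n := by nlinarith
  have h8 : 1 ≤ ((n : ℝ) + 1) ^ m * r ^ m := by
    rw [← mul_pow]
    refine one_le_pow₀ ?_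
    rw [div_lt_iff₀ hr0'] at hj2
    nlinarith
  have h9 : (n + 1) * (n + 1) ^ m * ‖c k‖ / 4 ≤ ‖der m (T c) x‖ / m ! := by
    rw [le_div_iff₀ hmf]
    have : (n + 1) * ((m ! : ℝ) * (n + 1) ^ m) * ‖c k‖ ≤ fr n * ‖c k‖ := by gcongr
    nlinarith
  have h10 : (n + 1) * (n + 1) ^ m * ‖c k‖ / 4 * r ^ m ≤ C :=
    le_trans (by gcongr) h5
  have h11 : (n + 1) * ‖c k‖ / 4 * 1 ≤ (n + 1) * ‖c k‖ / 4 * ((n + 1) ^ m * r ^ m) := by gcongr
  rw [div_lt_iff₀ hkpos] at hj4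
  nlinarith

noncomputable def V (𝕂 : Type) [RCLike 𝕂] : Submodule 𝕂 (Cinf 𝕂) :=
  (LinearMap.range T).comap (Cinf 𝕂).subtype

noncomputable def ee (k : ℕ) : ℕ →ᵇ 𝕂 :=
  BoundedContinuousFunction.mkOfDiscrete (Pi.single k 1) 2 fun i j => by
    have h : ∀ i, ‖(Pi.single k 1 : ℕ → 𝕂) i‖ ≤ 1 := by
      intro i
      rw [Pi.single_apply]
      split_ifs <;> simp
    have := norm_sub_le ((Pi.single k 1 : ℕ → 𝕂) i) ((Pi.single k 1 : ℕ → 𝕂) j)
    rw [dist_eq_norm]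
    linarith [h i, h j]

theorem T_ee_mem (k : ℕ) : T (ee k) ∈ Cinf 𝕂 := by
  refine ContDiffOn.congr ?_ (iccExtend_T (ee k))
  have : Hc (ee k : ℕ →ᵇ 𝕂) = fun x => hb k x • (1 : 𝕂) := by
    funext x
    unfold Hc
    rw [tsum_eq_single k fun j hj => by simp [ee, Pi.single_eq_of_ne hj]]
    simp [ee]
  rw [this]
  exact (((hb_contDiff k).smul contDiff_const).add (Rc_contDiff _)).contDiffOn

theorem not_finite_V : ¬ FiniteDimensional 𝕂 (V 𝕂) := by
  intro hfin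
  let g : ℕ → V 𝕂 := fun k => ⟨⟨T (ee k), T_ee_mem k⟩, ⟨ee k, rfl⟩⟩
  have h1 : LinearIndependent 𝕂 (ee (𝕂 := 𝕂)) := by
    let L : (ℕ →ᵇ 𝕂) →ₗ[𝕂] (ℕ → 𝕂) :=
      { toFun := fun c => c, map_add' := fun _ _ => rfl, map_smul' := fun _ _ => rfl }
    exact LinearIndependent.of_comp L (Pi.linearIndependent_single_one ℕ 𝕂)
  have h2 := h1.map' T (LinearMap.ker_eq_bot.2 T_injective)
  have h3 : LinearIndependent 𝕂 g :=
    LinearIndependent.of_comp ((Cinf 𝕂).subtype.comp (V 𝕂).subtype) h2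
  exact Module.Finite.not_linearIndependent_of_infinite g h3

theorem isClosed_V : IsClosed[frechet 𝕂] (V 𝕂 : Set (Cinf 𝕂)) := by
  let _ := frechet 𝕂
  have hcont : Continuous fun f : Cinf 𝕂 => (UniformFun.ofFun (der 0 f.1) : I →ᵤ 𝕂) :=
    continuous_iff_le_induced.2 (iInf_le _ 0)
  have hder : ∀ f : I → 𝕂, der 0 f = f := by
    intro f
    funext x
    simp [der]
  rw [← closure_subset_iff_isClosed]
  intro f hf
  refine mem_range_of_approx f.1 fun ε hε => ?_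
  have hU : {g : I →ᵤ 𝕂 | ∀ x, (UniformFun.toFun (UniformFun.ofFun (der 0 f.1)) x,
      UniformFun.toFun g x) ∈ {p : 𝕂 × 𝕂 | dist p.1 p.2 < ε}} ∈
      𝓝 (UniformFun.ofFun (der 0 f.1) : I →ᵤ 𝕂) :=
    (UniformFun.hasBasis_nhds I 𝕂 _).mem_of_mem (Metric.dist_mem_uniformity hε)
  obtain ⟨g, hg1, d, hd⟩ := mem_closure_iff_nhds.1 hf _ (hcont.continuousAt.preimage_mem_nhds hU)
  refine ⟨d, fun x => ?_⟩
  have := hg1 x
  simp only [hder, UniformFun.toFun_ofFun, mem_ofPred_eq] at this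
  rw [hd, ← dist_eq_norm, dist_comm]
  exact this.le

theorem main (𝕂 : Type) [RCLike 𝕂] : ∃ W : Submodule 𝕂 (Cinf 𝕂),
    IsClosed[frechet 𝕂] (W : Set (Cinf 𝕂)) ∧ ¬ FiniteDimensional 𝕂 W ∧
      ∀ f ∈ W, f ≠ 0 → ∀ x : I, rho f.1 x = 0 := by
  refine ⟨V 𝕂, isClosed_V, not_finite_V, ?_⟩
  rintro ⟨f, hf⟩ ⟨c, hc⟩ hne x
  have hc' : T c = f := hc
  subst hc'
  refine rho_T c hf ?_ x
  rintro rfl
  exact hne (Subtype.ext (map_zero T))

end H749Z.PS
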