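import Mathlib
import Pool.Agent.H749Z.PS.DefsAlg
import Pool.Agent.H749Z.PS.Main
import Pool.Agent.H749Z.PS.Flat

set_option autoImplicit false

open scoped ContDiff Nat Topology BoundedContinuousFunction Cardinal
open Filter Set MvPolynomial

namespace H749Z.PS

theorem exists_base : ∃ (F : ℝ → ℝ) (M : ℝ), ContDiff ℝ ∞ F ∧ ∀ x ∈ I, deriv F x + M ≠ 0 ∧
    (FormalMultilinearSeries.ofScalars ℝ fun n => iteratedDeriv n F x / (n ! : ℝ)).radius = 0 := by
  let F : ℝ → ℝ := fun x => Hc (ee 0 : ℕ →ᵇ ℝ) x + Rc (ee 0 : ℕ →ᵇ ℝ) x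
  have h1 : Hc (ee 0 : ℕ →ᵇ ℝ) = fun x => hb 0 x • (1 : ℝ) := by
    funext x
    unfold Hc
    rw [tsum_eq_single 0 fun j hj => by simp [ee, Pi.single_eq_of_ne hj]]
    simp [ee]
  have hF : ContDiff ℝ ∞ F := by
    simp only [F, h1]
    exact ((hb_contDiff 0).smul contDiff_const).add (Rc_contDiff _)
  obtain ⟨C, hC⟩ := (isCompact_Icc (a := (0 : ℝ)) (b := 1)).exists_bound_of_continuousOn
    (hF.continuous_deriv (by simp)).continuousOn
  refine ⟨F, C + 1, hF, fun x hx => ⟨?_, ?_⟩⟩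
  · have := (abs_le.1 (hC x hx)).1
    linarith
  · have h0 : (ee 0 : ℕ →ᵇ ℝ) ≠ 0 := by
      intro h
      have := congrArg (fun c : ℕ →ᵇ ℝ => c 0) h
      simp [ee] at this
    have h2 := rho_T (ee 0 : ℕ →ᵇ ℝ) (T_ee_mem 0) h0 ⟨x, hx⟩
    have h3 : ∀ n, der n (T (ee 0 : ℕ →ᵇ ℝ)) ⟨x, hx⟩ = iteratedDeriv n F x := by
      intro n
      rw [der, iteratedDerivWithin_congr (iccExtend_T _) hx]
      exact iteratedDerivWithin_eq_iteratedDeriv (uniqueDiffOn_Icc one_pos)
        ((hF.of_le (by exact_mod_cast le_top)).contDiffAt) hx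
    simpa only [rho, h3] using h2

variable {𝕂 : Type} [RCLike 𝕂] {ι : Type}

/-- The exponential polynomial attached to `P`. -/
noncomputable def expP (β : ι → ℝ) (P : MvPolynomial ι 𝕂) (y : ℝ) : 𝕂 :=
  eval (fun i => ((Real.exp (β i * y) : ℝ) : 𝕂)) P

theorem expP_analytic (β : ι → ℝ) (P : MvPolynomial ι 𝕂) (y : ℝ) : AnalyticAt ℝ (expP β P) y := by
  unfold expP
  induction P using MvPolynomial.induction_on with
  | C a => simpa using analyticAt_const
  | add p q hp hq => simpa using hp.fun_add hq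
  | mul_X p i hp =>
    have : AnalyticAt ℝ (fun y : ℝ => ((Real.exp (β i * y) : ℝ) : 𝕂)) y :=
      AnalyticAt.comp (f := fun y : ℝ => Real.exp (β i * y))
        ((RCLike.ofRealCLM (K := 𝕂)).analyticAt _) (by fun_prop)
    simpa using hp.fun_mul this

noncomputable def chi (γ : ℝ) : Multiplicative ℝ →* 𝕂 where
  toFun y := ((Real.exp (γ * y.toAdd) : ℝ) : 𝕂)
  map_one' := by simp
  map_mul' a b := by simp [mul_add, Real.exp_add]

theorem chi_injective : Function.Injective (chi (𝕂 := 𝕂)) := by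
  intro a b h
  have := DFunLike.congr_fun h (Multiplicative.ofAdd 1)
  simpa [chi] using this

theorem expP_eq_zero {β : ι → ℝ} (hβ : LinearIndependent ℕ β) {P : MvPolynomial ι 𝕂}
    (h : ∀ y, expP β P y = 0) : P = 0 := by
  have h1 := (linearIndependent_monoidHom (Multiplicative ℝ) 𝕂).comp
    (fun d : ι →₀ ℕ => chi (Finsupp.linearCombination ℕ β d)) (chi_injective.comp hβ)
  rw [linearIndependent_iff'] at h1
  have h2 := h1 P.support (fun d => coeff d P) (by
    funext y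
    have := h y.toAdd
    rw [expP, eval_eq] at this
    rw [Finset.sum_apply, Pi.zero_apply, ← this]
    refine Finset.sum_congr rfl fun d _ => ?_
    simp only [Function.comp_apply, Pi.smul_apply, smul_eq_mul, chi, MonoidHom.coe_mk,
      OneHom.coe_mk, Finsupp.linearCombination_apply, Finsupp.sum, Finset.sum_mul, Real.exp_sum,
      nsmul_eq_mul, mul_assoc, Real.exp_nat_mul]
    push_cast
    rfl)
  ext d
  by_cases hd : d ∈ P.support
  · exact h2 d hd
  · simpa using hd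

theorem exists_family {β : ι → ℝ} (hβ : LinearIndependent ℕ β) : ∃ g : ι → C(I, 𝕂),
    ∀ P : MvPolynomial ι 𝕂, P ≠ 0 → constantCoeff P = 0 → aeval g P ∈ PSset 𝕂 := by
  obtain ⟨F, M, hF, hM⟩ := exists_base
  have hFc := hF.continuous
  refine ⟨fun i => ⟨fun t => ((Real.exp (β i * (F t + M * t)) : ℝ) : 𝕂), by fun_prop⟩,
    fun P hP hP0 => ?_⟩
  have hE := expP_analytic β P
  have hEc : ContDiff ℝ ∞ (expP β P) := contDiff_iff_contDiffAt.2 fun y => (hE y).contDiffAt
  have hg : ContDiff ℝ ∞ fun t => expP β P (F t + M * t) := hEc.comp (hF.add (by fun_prop))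
  have hval : ∀ t : I, (aeval (fun i => (⟨fun t : I => ((Real.exp (β i * (F t + M * t)) : ℝ) : 𝕂),
      by fun_prop⟩ : C(I, 𝕂))) P) t = expP β P (F t + M * t) := by
    intro t
    unfold expP
    clear hP hP0 hE hEc hg
    induction P using MvPolynomial.induction_on with
    | C a => simp
    | add p q hp hq => simp only [map_add, ContinuousMap.add_apply, hp, hq]
    | mul_X p i hp => simp only [map_mul, ContinuousMap.mul_apply, hp, aeval_X, eval_X,
        ContinuousMap.coe_mk]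
  set G := aeval (fun i => (⟨fun t : I => ((Real.exp (β i * (F t + M * t)) : ℝ) : 𝕂),
      by fun_prop⟩ : C(I, 𝕂))) P
  have hext : EqOn (IccExtend zero_le_one (G : I → 𝕂)) (fun t => expP β P (F t + M * t)) I :=
    fun t ht => by rw [IccExtend_of_mem _ _ ht, hval]
  refine ⟨ContDiffOn.congr hg.contDiffOn hext, fun x => ?_⟩
  have h3 : ∀ n, der n (G : I → 𝕂) x = iteratedDeriv n (fun t => expP β P (F t + M * t)) x := by
    intro n
    rw [der, iteratedDerivWithin_congr hext x.2]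
    exact iteratedDerivWithin_eq_iteratedDeriv (uniqueDiffOn_Icc one_pos)
      ((hg.of_le (by exact_mod_cast le_top)).contDiffAt) x.2
  simp only [rho, h3]
  refine radius_comp_eq_zero hF (hM x x.2).1 (hM x x.2).2 hE fun c hc => ?_
  have h4 : P - C c = 0 := expP_eq_zero hβ fun y => by
    have := hc y
    simp only [expP, map_sub, eval_C] at this ⊢
    rw [this, sub_self]
  rw [sub_eq_zero.1 h4] at hP hP0
  rw [constantCoeff_C] at hP0
  exact hP (by rw [hP0, map_zero])

theorem zero_notMem_PSset : (0 : C(I, 𝕂)) ∉ PSset 𝕂 := by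
  intro h
  have h1 := h.2 ⟨0, by simp⟩
  have h2 : ∀ n, der n ((0 : C(I, 𝕂)) : I → 𝕂) ⟨0, by simp⟩ = 0 := by
    intro n
    have : IccExtend zero_le_one ((0 : C(I, 𝕂)) : I → 𝕂) = fun _ => 0 := rfl
    rw [der, this]
    simp
  simp only [rho, h2, zero_div] at h1
  rw [FormalMultilinearSeries.radius_eq_top_of_forall_image_add_eq_zero _ 0 (by simp)] at h1
  exact ENNReal.top_ne_zero h1

theorem exists_poly (g : ι → C(I, 𝕂)) (J : Set ι) {h : C(I, 𝕂)}
    (hh : h ∈ NonUnitalAlgebra.adjoin 𝕂 (g '' J)) :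
    ∃ P : MvPolynomial ι 𝕂, P ∈ supported 𝕂 J ∧ constantCoeff P = 0 ∧ aeval g P = h := by
  induction hh using NonUnitalAlgebra.adjoin_induction with
  | mem x hx =>
    obtain ⟨i, hi, rfl⟩ := hx
    exact ⟨X i, X_mem_supported.2 hi, by simp, by simp⟩
  | add x y _ _ hx hy =>
    obtain ⟨P, h1, h2, rfl⟩ := hx
    obtain ⟨Q, h3, h4, rfl⟩ := hy
    exact ⟨P + Q, add_mem h1 h3, by simp [h2, h4], by simp⟩
  | zero => exact ⟨0, zero_mem _, by simp, by simp⟩
  | mul x y _ _ hx hy =>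
    obtain ⟨P, h1, h2, rfl⟩ := hx
    obtain ⟨Q, h3, h4, rfl⟩ := hy
    exact ⟨P * Q, mul_mem h1 h3, by simp [h2], by simp⟩
  | smul r x _ hx =>
    obtain ⟨P, h1, h2, rfl⟩ := hx
    exact ⟨r • P, Subalgebra.smul_mem _ h1 r, by simp [h2], by simp⟩

theorem main_alg (𝕂 : Type) [RCLike 𝕂] : ∃ S : Set C(I, 𝕂), #S = 𝔠 ∧ AlgIndep S ∧
    (∀ T, T ⊂ S → NonUnitalAlgebra.adjoin 𝕂 T ≠ NonUnitalAlgebra.adjoin 𝕂 S) ∧
    ∀ h ∈ NonUnitalAlgebra.adjoin 𝕂 S, h ≠ 0 → h ∈ PSset 𝕂 := by
  classical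
  let b := Module.Basis.ofVectorSpace ℚ ℝ
  have hβ : LinearIndependent ℕ b :=
    b.linearIndependent.restrict_scalars fun m n h => by simpa using h
  obtain ⟨g, hg⟩ := exists_family (𝕂 := 𝕂) hβ
  have hne : ∀ P : MvPolynomial _ 𝕂, P ≠ 0 → constantCoeff P = 0 → aeval g P ≠ 0 := fun P h1 h2 h3 =>
    zero_notMem_PSset (h3 ▸ hg P h1 h2)
  have hinj : Function.Injective g := by
    intro i j hij
    by_contra h
    refine hne (X i - X j) (sub_ne_zero.2 fun h' => h (X_injective h')) (by simp) ?_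
    simp [hij]
  refine ⟨range g, ?_, ?_, ?_, ?_⟩
  · rw [Cardinal.mk_range_eq _ hinj, b.mk_eq_rank'', Real.rank_rat_real]
  · intro N f hf hfS P hP hP0
    choose k hk using hfS
    have hkinj : Function.Injective k := fun i j h => hf (by rw [← hk, ← hk, h])
    have := hne (rename k P) (fun h => hP (rename_injective k hkinj (by simpa using h)))
      (by simpa using hP0)
    rwa [aeval_rename, show g ∘ k = f from funext hk] at this
  · intro T hT heq
    obtain ⟨_, ⟨i, rfl⟩, hi⟩ := exists_of_ssubset hT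
    have h1 : T ⊆ g '' {i}ᶜ := by
      intro t ht
      obtain ⟨j, rfl⟩ := hT.1 ht
      refine ⟨j, ?_, rfl⟩
      rintro rfl
      exact hi ht
    have h2 : g i ∈ NonUnitalAlgebra.adjoin 𝕂 T := heq ▸ NonUnitalAlgebra.subset_adjoin 𝕂 ⟨i, rfl⟩
    obtain ⟨P, h3, h4, h5⟩ := exists_poly g {i}ᶜ (NonUnitalAlgebra.adjoin_mono h1 h2)
    refine hne (X i - P) (sub_ne_zero.2 ?_) (by simp [h4]) (by simp [h5])
    rintro rfl
    exact (X_mem_supported.1 h3) rfl
  · intro h hh h0
    rw [← image_univ] at hh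
    obtain ⟨P, -, h4, rfl⟩ := exists_poly g univ hh
    exact hg P (fun h => h0 (by simp [h])) h4

end H749Z.PS
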